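import Pool.Agent.U115.WM.Stm

/-!
# Project WM (helper115): package DCQ, the coefficients of a quadratic form in a reduced basis
-/

set_option autoImplicit false

open scoped Classical
open Matrix

namespace Pool.Agent.U784.WM.DCQ
open Pool.Agent.U115.WM

variable {n k : ℕ}

lemma exU (B B0 : Matrix (Fin n) (Fin k) ℤ) (h : lat B ⊆ lat B0) :
    ∃ U : Matrix (Fin k) (Fin k) ℤ, B = B0 * U := by
  have h1 : ∀ j : Fin k, ∃ u : Fin k → ℤ, B0 *ᵥ u = B *ᵥ (Pi.single j 1) :=
    fun j => h ⟨Pi.single j 1, rfl⟩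
  choose u hu using h1
  refine ⟨Matrix.of fun i j => u j i, ?_⟩
  ext l j
  have h2 := congrFun (hu j) l
  rw [Matrix.mulVec_single_one] at h2
  rw [Matrix.mul_apply]
  exact h2.symm

lemma inv_of (B0 : Matrix (Fin n) (Fin k) ℤ) (h0 : Inj B0) (W : Matrix (Fin k) (Fin k) ℤ)
    (h : B0 = B0 * W) : W = 1 := by
  have h1 : ∀ j : Fin k, (W - 1) *ᵥ (Pi.single j 1) = 0 := by
    intro j
    apply h0
    rw [Matrix.mulVec_mulVec, Matrix.mul_sub, ← h, Matrix.mul_one, sub_self, Matrix.zero_mulVec]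
  ext i j
  have h2 := congrFun (h1 j) i
  rw [Matrix.mulVec_single_one] at h2
  have h3 : (W - 1) i j = 0 := h2
  rw [Matrix.sub_apply] at h3
  omega

lemma qf_dot (c : Matrix (Fin k) (Fin k) ℤ) (x : Fin k → ℤ) :
    ∑ i, ∑ j, c i j * x i * x j = x ⬝ᵥ (c *ᵥ x) := by
  unfold dotProduct Matrix.mulVec dotProduct
  refine Finset.sum_congr rfl fun i _ => ?_
  rw [Finset.mul_sum]
  refine Finset.sum_congr rfl fun j _ => ?_
  ring

lemma qf_conj (c U : Matrix (Fin k) (Fin k) ℤ) (x : Fin k → ℤ) :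
    (U *ᵥ x) ⬝ᵥ (c *ᵥ (U *ᵥ x)) = x ⬝ᵥ ((Uᵀ * c * U) *ᵥ x) := by
  symm
  rw [← Matrix.mulVec_mulVec, ← Matrix.mulVec_mulVec, Matrix.dotProduct_mulVec x,
    Matrix.vecMul_transpose]

/-- the upper triangular form of a matrix -/
def up (q : Matrix (Fin k) (Fin k) ℤ) : Matrix (Fin k) (Fin k) ℤ := Matrix.of fun i j =>
  (if i < j then q i j else 0) + (if i < j then q j i else 0) + (if i = j then q i j else 0)

lemma up_sum (q : Matrix (Fin k) (Fin k) ℤ) (x : Fin k → ℤ) :
    ∑ i, ∑ j, up q i j * x i * x j = ∑ i, ∑ j, q i j * x i * x j := by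
  have h1 : ∀ i j : Fin k, up q i j * x i * x j =
      (if i < j then q i j * x i * x j else 0) + (if i < j then q j i * x j * x i else 0) +
        (if i = j then q i j * x i * x j else 0) := by
    intro i j
    unfold up
    rw [Matrix.of_apply]
    split_ifs <;> ring
  have h2 : ∀ i j : Fin k, q i j * x i * x j =
      (if i < j then q i j * x i * x j else 0) + (if j < i then q i j * x i * x j else 0) +
        (if i = j then q i j * x i * x j else 0) := by
    intro i j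
    rcases lt_trichotomy i j with h | h | h
    · rw [if_pos h, if_neg h.not_gt, if_neg h.ne]; ring
    · rw [if_neg (by rw [h]; exact lt_irrefl _), if_neg (by rw [h]; exact lt_irrefl _), if_pos h]; ring
    · rw [if_neg h.not_gt, if_pos h, if_neg h.ne']; ring
  rw [Finset.sum_congr rfl fun i _ => Finset.sum_congr rfl fun j _ => h1 i j,
    Finset.sum_congr rfl fun i _ => Finset.sum_congr rfl fun j _ => h2 i j]
  simp only [Finset.sum_add_distrib]
  congr 2
  rw [Finset.sum_comm]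

lemma up_sym (q : Matrix (Fin k) (Fin k) ℤ) : up q + (up q)ᵀ = q + qᵀ := by
  ext i j
  simp only [Matrix.add_apply, Matrix.transpose_apply, up, Matrix.of_apply]
  rcases lt_trichotomy i j with h | h | h
  · rw [if_pos h, if_pos h, if_neg h.ne, if_neg h.not_gt, if_neg h.not_gt, if_neg h.ne']; ring
  · subst h
    simp
  · rw [if_neg h.not_gt, if_neg h.not_gt, if_neg h.ne', if_pos h, if_pos h, if_neg h.ne]; ring

lemma qf_two (c : Matrix (Fin k) (Fin k) ℤ) (i j : Fin k) (x y : ℤ) :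
    ∑ a, ∑ b, c a b * (Pi.single i x + Pi.single j y : Fin k → ℤ) a *
      (Pi.single i x + Pi.single j y : Fin k → ℤ) b =
      x * x * c i i + x * y * (c i j + c j i) + y * y * c j j := by
  rw [qf_dot, Matrix.mulVec_add, dotProduct_add, add_dotProduct, add_dotProduct]
  simp only [single_dotProduct, Matrix.mulVec_single, Pi.smul_apply, Matrix.col_apply,
    MulOpposite.smul_eq_mul_unop, MulOpposite.unop_op]
  ring

lemma mv_two (B : Matrix (Fin n) (Fin k) ℤ) (i j : Fin k) (x y : ℤ) (l : Fin n) :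
    (B *ᵥ (Pi.single i x + Pi.single j y)) l = B l i * x + B l j * y := by
  rw [Matrix.mulVec_add]
  simp only [Pi.add_apply, Matrix.mulVec_single, Pi.smul_apply, Matrix.col_apply,
    MulOpposite.smul_eq_mul_unop, MulOpposite.unop_op]

lemma N_lt (B : Matrix (Fin n) (Fin k) ℤ) (i : Fin k) (h : 1 ≤ N B i) :
    (N B i : ℝ) ≤ 4 * 4 ^ typ B i := by
  have h1 := Nat.lt_pow_succ_log_self (b := 4) (by norm_num) (N B i).toNat
  have h2 : ((N B i).toNat : ℤ) = N B i := Int.toNat_of_nonneg (by omega)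
  have h3 : (N B i : ℝ) = (((N B i).toNat : ℕ) : ℝ) := by
    have h5 : ((N B i : ℤ) : ℝ) = ((((N B i).toNat : ℕ) : ℤ) : ℝ) := by rw [h2]
    rw [h5, Int.cast_natCast]
  rw [h3]
  have h4 : (((N B i).toNat : ℕ) : ℝ) ≤ ((4 ^ (Nat.log 4 (N B i).toNat).succ : ℕ) : ℝ) := by
    exact_mod_cast h1.le
  refine h4.trans (le_of_eq ?_)
  unfold typ
  push_cast
  rw [pow_succ]
  ring

lemma typ_mono (B : Matrix (Fin n) (Fin k) ℤ) (hm : Monotone (N B)) : Monotone (typ B) := by
  intro i j hij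
  exact Nat.log_mono_right (Int.toNat_le_toNat (hm hij))

lemma key (B : Matrix (Fin n) (Fin k) ℤ) (hm : Monotone (N B)) (hp : ∀ i, 1 ≤ N B i)
    (f : (Fin n → ℤ) → ℤ) (c : Matrix (Fin k) (Fin k) ℤ) (hc : IsForm B c f) (h : ℝ) (hh : 0 < h)
    (hf : ∀ v ∈ lat B, |(f v : ℝ)| ≤ h * ∑ l, (v l : ℝ) ^ 2) (i j : Fin k) (hij : i ≤ j) :
    |((c i j + c j i : ℤ) : ℝ)| ≤ 8 * h * 2 ^ (typ B i + typ B j) := by
  set ei := typ B i with hei
  set ej := typ B j with hej
  have hee : ei ≤ ej := typ_mono B hm hij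
  set x : ℤ := 2 ^ (ej - ei) with hx
  have hx0 : (0 : ℝ) < (x : ℝ) := by rw [hx]; positivity
  set v1 := B *ᵥ (Pi.single i x + Pi.single j 1) with hv1
  set v2 := B *ᵥ (Pi.single i x + Pi.single j (-1)) with hv2
  have e1 : f v1 = x * x * c i i + x * 1 * (c i j + c j i) + 1 * 1 * c j j := by
    rw [hv1, hc.2.1, qf_two]
  have e2 : f v2 = x * x * c i i + x * (-1) * (c i j + c j i) + (-1) * (-1) * c j j := by
    rw [hv2, hc.2.1, qf_two]
  have e3 : (f v1 : ℝ) - f v2 = 2 * x * ((c i j + c j i : ℤ) : ℝ) := by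
    rw [e1, e2]; push_cast; ring
  have b1 := hf v1 ⟨_, rfl⟩
  have b2 := hf v2 ⟨_, rfl⟩
  have e4 : (∑ l, (v1 l : ℝ) ^ 2) + ∑ l, (v2 l : ℝ) ^ 2 = 2 * ((x : ℝ) ^ 2 * N B i + N B j) := by
    unfold N
    push_cast
    rw [← Finset.sum_add_distrib, Finset.mul_sum, ← Finset.sum_add_distrib, Finset.mul_sum]
    refine Finset.sum_congr rfl fun l _ => ?_
    rw [hv1, hv2, mv_two, mv_two]
    push_cast
    ring
  have e5 : 2 * (x : ℝ) * |((c i j + c j i : ℤ) : ℝ)| ≤ h * (2 * ((x : ℝ) ^ 2 * N B i + N B j)) := by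
    rw [← e4, mul_add]
    have : 2 * (x : ℝ) * |((c i j + c j i : ℤ) : ℝ)| = |(f v1 : ℝ) - f v2| := by
      rw [e3, abs_mul, abs_of_pos (by positivity : (0 : ℝ) < 2 * x)]
    rw [this]
    exact (abs_sub _ _).trans (add_le_add b1 b2)
  have n1 := N_lt B i (hp i)
  have n2 := N_lt B j (hp j)
  have e6 : (x : ℝ) ^ 2 * 4 ^ ei = 4 ^ ej := by
    rw [hx]
    push_cast
    rw [← pow_mul, mul_comm (ej - ei) 2, pow_mul, show (2 : ℝ) ^ 2 = 4 by norm_num, ← pow_add]
    congr 1
    omega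
  have e7 : (4 : ℝ) ^ ej = x * 2 ^ (ei + ej) := by
    rw [hx]
    push_cast
    rw [← pow_add, show (4 : ℝ) = 2 ^ 2 by norm_num, ← pow_mul]
    congr 1
    omega
  have e8 : (x : ℝ) ^ 2 * N B i + N B j ≤ 8 * (x * 2 ^ (ei + ej)) := by
    have : (x : ℝ) ^ 2 * N B i ≤ (x : ℝ) ^ 2 * (4 * 4 ^ ei) := by gcongr
    rw [← e7]
    nlinarith [this, n2, e6]
  have e9 : 2 * (x : ℝ) * |((c i j + c j i : ℤ) : ℝ)| ≤ 2 * x * (8 * h * 2 ^ (ei + ej)) := by
    refine e5.trans ?_
    have := mul_le_mul_of_nonneg_left e8 hh.le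
    nlinarith [this]
  exact le_of_mul_le_mul_left e9 (by positivity)

theorem t_DCQ : S_DCQ := by
  intro n k C₀ p B hB hl
  obtain ⟨B0, c0, hi0, hl0, hsat, hf0, hd0, -⟩ := p.ex
  have hlB : lat B = lat B0 := hl.trans hl0.symm
  obtain ⟨U, hU⟩ := exU B B0 hlB.le
  obtain ⟨V, hV⟩ := exU B0 B hlB.ge
  have hUV : U * V = 1 := inv_of B0 hi0 _ (by rw [← Matrix.mul_assoc, ← hU, ← hV])
  have hdU : U.det ≠ 0 := by
    intro h
    have h1 := congrArg Matrix.det hUV
    rw [Matrix.det_mul, h, zero_mul, Matrix.det_one] at h1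
    exact zero_ne_one h1
  set c := up (Uᵀ * c0 * U) with hc
  have hform : IsForm B c p.f := by
    refine ⟨?_, ?_, ?_⟩
    · intro i j hji
      rw [hc]
      simp only [up, Matrix.of_apply]
      rw [if_neg hji.not_gt, if_neg hji.not_gt, if_neg hji.ne']
      ring
    · intro x
      rw [hc, up_sum, qf_dot, ← qf_conj, ← qf_dot, ← hf0.2.1, hU, Matrix.mulVec_mulVec]
    · intro v hv
      exact hf0.2.2 v (by rwa [← hlB])
  have hdet : (c + cᵀ).det ≠ 0 := by
    rw [hc, up_sym]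
    have : Uᵀ * c0 * U + (Uᵀ * c0 * U)ᵀ = Uᵀ * (c0 + c0ᵀ) * U := by
      rw [Matrix.transpose_mul, Matrix.transpose_mul, Matrix.transpose_transpose, Matrix.mul_add,
        Matrix.add_mul, Matrix.mul_assoc Uᵀ c0ᵀ U]
    rw [this, Matrix.det_mul, Matrix.det_mul, Matrix.det_transpose]
    exact mul_ne_zero (mul_ne_zero hdU hd0) hdU
  refine ⟨c, ⟨hform, hdet, ?_⟩, ?_⟩
  · intro h hh hf i j
    have hf' : ∀ v ∈ lat B, |(p.f v : ℝ)| ≤ h * ∑ l, (v l : ℝ) ^ 2 := fun v hv => hf v (hl ▸ hv)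
    have hs : |((c i j + c j i : ℤ) : ℝ)| ≤ 8 * h * 2 ^ (typ B i + typ B j) := by
      rcases le_total i j with hij | hij
      · exact key B hB.mono hB.pos p.f c hform h hh hf' i j hij
      · rw [add_comm (c i j), add_comm (typ B i)]
        exact key B hB.mono hB.pos p.f c hform h hh hf' j i hij
    have hpos : 0 < h * 2 ^ (typ B i + typ B j) := by positivity
    refine ⟨by nlinarith [hs, hpos], ?_⟩
    have hc1 : |(c i j : ℝ)| ≤ |((c i j + c j i : ℤ) : ℝ)| := by
      rcases lt_trichotomy i j with h1 | h1 | h1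
      · rw [hform.1 j i h1, add_zero]
      · subst h1
        push_cast
        rw [← two_mul, abs_mul]
        have := abs_nonneg (c i i : ℝ)
        norm_num
        linarith
      · rw [hform.1 i j h1]
        simp
    nlinarith [hs, hpos, hc1]
  · rintro c' ⟨hform', -, -⟩
    have h1 : ∀ i j x y, x * x * c' i i + x * y * (c' i j + c' j i) + y * y * c' j j =
        x * x * c i i + x * y * (c i j + c j i) + y * y * c j j := by
      intro i j x y
      rw [← qf_two, ← qf_two, ← hform'.2.1, ← hform.2.1]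
    have h2 : ∀ i, c' i i = c i i := by
      intro i
      have := h1 i i 1 0
      simpa using this
    ext i j
    rcases lt_trichotomy i j with h3 | h3 | h3
    · have h4 := h1 i j 1 1
      rw [h2 i, h2 j, hform'.1 j i h3, hform.1 j i h3] at h4
      linarith
    · subst h3
      exact h2 i
    · rw [hform'.1 i j h3, hform.1 i j h3]

end Pool.Agent.U784.WM.DCQ
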